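import Pool.Agent.Run7.h128.Int.Aut
import Pool.Agent.Run7.h128.Int.Heis

/-! A variety of groups which is not abelian and all of whose members have an integral. -/

set_option autoImplicit false

open scoped commutatorElement

namespace Pool.Agent.Results.MP_fbf3cb_al.VarietyOfIntegrableGroups

universe u

/-- The group `G` belongs to the variety of groups defined by the set of laws `w = 1`, `w ∈ W`:
each word `w ∈ W` (an element of the free group on `x₀, x₁, ...`) takes the value `1` under
every substitution of elements of `G` for its letters. -/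
def InVariety (W : Set (FreeGroup ℕ)) (G : Type u) [Group G] : Prop :=
  ∀ w ∈ W, ∀ f : ℕ → G, FreeGroup.lift f w = 1

/-- The two laws `[[x₀, x₁], x₂] = 1` and `x₀ ^ p = 1`. -/
def laws (p : ℕ) : Set (FreeGroup ℕ) :=
  {⁅⁅FreeGroup.of 0, FreeGroup.of 1⁆, FreeGroup.of 2⁆, FreeGroup.of 0 ^ p}

/-- The group `G` has an integral: it is isomorphic to the derived subgroup of some group. -/
def Integrable (G : Type u) [Group G] : Prop :=
  ∃ (H : Type u) (_ : Group H), Nonempty (commutator H ≃* G)

theorem inVariety_iff (p : ℕ) (G : Type u) [Group G] :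
    InVariety (laws p) G ↔ (∀ x y z : G, ⁅⁅x, y⁆, z⁆ = 1) ∧ ∀ x : G, x ^ p = 1 := by
  constructor
  · intro h
    refine ⟨fun x y z => ?_, fun x => ?_⟩
    · have := h _ (Or.inl rfl) (fun n => if n = 0 then x else if n = 1 then y else z)
      simpa [map_commutatorElement] using this
    · have := h _ (Or.inr rfl) (fun _ => x)
      simpa using this
  · rintro ⟨h1, h2⟩ w (rfl | rfl) f
    · simpa [map_commutatorElement] using h1 (f 0) (f 1) (f 2)
    · simpa using h2 (f 0)

/-- For each odd prime `p` the variety of the groups of class at most two and exponent dividing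
`p` contains a non-abelian group, and each of its members has an integral. -/
theorem result (p : ℕ) (hp : p.Prime) (h2 : p ≠ 2) :
    (∃ (G : Type) (_ : Group G), InVariety (laws p) G ∧ ∃ x y : G, x * y ≠ y * x) ∧
    ∀ (G : Type u) [Group G], InVariety (laws p) G → Integrable G := by
  refine ⟨⟨Run7.h128.Int.Heis p, inferInstance, (inVariety_iff p _).2
    ⟨Run7.h128.Int.Heis.br_br, Run7.h128.Int.Heis.pow_p hp h2⟩, Run7.h128.Int.Heis.ne hp⟩, ?_⟩
  intro G _ hG
  obtain ⟨h1, h3⟩ := (inVariety_iff p G).1 hG
  exact Run7.h128.Int.integrable h1 hp h2 h3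

end Pool.Agent.Results.MP_fbf3cb_al.VarietyOfIntegrableGroups
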